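import Pool.Agent.W321.SQ.Stm

/-!
# Greedy labels of the cluster (KlStm)
-/

set_option autoImplicit false

namespace Pool.Agent.W672.SQ

open Finset Pool.Agent.W321.SP Pool.Agent.W321.SQ

theorem gap (P : Finset ℕ) (s G c A : ℕ) (hG : 0 < G) : ∃ y, y ≡ c [MOD G] ∧ A ≤ y ∧
    y < A + P.card * (2 * s + G) + G ∧ ∀ p ∈ P, s ≤ ad y p := by
  by_contra hcon
  push Not at hcon
  set f : ℕ → ℕ := fun i =>
    (A + i * (2 * s + G)) + (c + (G - 1) * (A + i * (2 * s + G))) % G with hf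
  have hfc : ∀ i, f i ≡ c [MOD G] := by
    intro i
    simp only [hf]
    set B := A + i * (2 * s + G)
    have h1 : B + (c + (G - 1) * B) % G ≡ B + (c + (G - 1) * B) [MOD G] :=
      Nat.ModEq.add_left _ (Nat.mod_modEq _ _)
    refine h1.trans ?_
    have h2 : B + (c + (G - 1) * B) = c + G * B := by
      obtain ⟨g, rfl⟩ : ∃ g, G = g + 1 := ⟨G - 1, by omega⟩
      simp only [Nat.add_sub_cancel]
      ring
    rw [h2]
    simp [Nat.ModEq]
  have hlo : ∀ i, A + i * (2 * s + G) ≤ f i := fun i => Nat.le_add_right _ _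
  have hhi : ∀ i, f i < A + i * (2 * s + G) + G := fun i =>
    Nat.add_lt_add_left (Nat.mod_lt _ hG) _
  have h : ∀ i ∈ range (P.card + 1), ∃ p ∈ P, ad (f i) p < s := by
    intro i hi
    have hi' : i ≤ P.card := by
      have := Finset.mem_range.1 hi
      omega
    apply hcon (f i) (hfc i)
    · exact le_trans (Nat.le_add_right _ _) (hlo i)
    · refine lt_of_lt_of_le (hhi i) ?_
      have : i * (2 * s + G) ≤ P.card * (2 * s + G) := Nat.mul_le_mul_right _ hi'
      omega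
  choose! q hq using h
  obtain ⟨i, hi, j, hj, hij, he⟩ := Finset.exists_ne_map_eq_of_card_lt_of_maps_to
    (s := range (P.card + 1)) (t := P) (f := q) (by simp) (fun i hi => (hq i hi).1)
  wlog hlt : i < j generalizing i j
  · exact this j hj i hi hij.symm he.symm (by omega)
  have h1 := (hq i hi).2
  have h2 := (hq j hj).2
  rw [he] at h1
  have h3 : A + i * (2 * s + G) + (2 * s + G) ≤ A + j * (2 * s + G) := by
    have h4 : (i + 1) * (2 * s + G) ≤ j * (2 * s + G) := Nat.mul_le_mul_right _ hlt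
    have e : (i + 1) * (2 * s + G) = i * (2 * s + G) + (2 * s + G) := by ring
    omega
  have h4 := hlo j
  have h5 := hhi i
  unfold ad at h1 h2
  omega

theorem pick {g₁ g₂ g₃ : ℕ} (hP : P3 g₁ g₂ g₃) (P : Finset ℕ) (s φ D A : ℕ) :
    ∃ y, A ≤ y ∧ y < A + P.card * (2 * s + g₁ * g₂ * g₃) + g₁ * g₂ * g₃ ∧
      (∀ p ∈ P, s ≤ ad y p) ∧ g₁ ∣ y ∧ ¬ g₃ ∣ y ∧ y ≡ D [MOD g₂] ∧ ¬ y ≡ φ [MOD g₃] ∧
      ¬ y ≡ D [MOD g₃] := by
  have h1 := hP.h1
  have h12 := hP.h12
  have h23 := hP.h23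
  obtain ⟨r, hr1, hr3, hrφ, hrD⟩ : ∃ r, 1 ≤ r ∧ r ≤ 3 ∧ r ≠ φ % g₃ ∧ r ≠ D % g₃ := by
    by_cases a1 : 1 ≠ φ % g₃ ∧ 1 ≠ D % g₃
    · exact ⟨1, by norm_num, by norm_num, a1.1, a1.2⟩
    · by_cases a2 : 2 ≠ φ % g₃ ∧ 2 ≠ D % g₃
      · exact ⟨2, by norm_num, by norm_num, a2.1, a2.2⟩
      · exact ⟨3, by norm_num, by norm_num, by omega, by omega⟩
  have c12 : Nat.Coprime g₁ g₂ := (Nat.coprime_primes hP.p1 hP.p2).2 h12.ne
  have c13 : Nat.Coprime g₁ g₃ := (Nat.coprime_primes hP.p1 hP.p3).2 (h12.trans h23).ne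
  have c23 : Nat.Coprime g₂ g₃ := (Nat.coprime_primes hP.p2 hP.p3).2 h23.ne
  have c123 : Nat.Coprime (g₁ * g₂) g₃ := Nat.Coprime.mul_left c13 c23
  obtain ⟨a, ha1, ha2⟩ := Nat.chineseRemainder c12 0 D
  obtain ⟨c, hc1, hc2⟩ := Nat.chineseRemainder c123 a r
  have hG : 0 < g₁ * g₂ * g₃ := by
    have := hP.p1.pos
    have := hP.p2.pos
    have := hP.p3.pos
    positivity
  obtain ⟨y, hy, hA, hB, hp⟩ := gap P s (g₁ * g₂ * g₃) c A hG
  have e12 : y ≡ a [MOD g₁ * g₂] := (Nat.ModEq.of_mul_right g₃ hy).trans hc1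
  have e1 : y ≡ 0 [MOD g₁] := (Nat.ModEq.of_mul_right g₂ e12).trans ha1
  have e2 : y ≡ D [MOD g₂] := (Nat.ModEq.of_mul_left g₁ e12).trans ha2
  have e3 : y ≡ r [MOD g₃] := (Nat.ModEq.of_mul_left (g₁ * g₂) hy).trans hc2
  have e3' : y % g₃ = r := by
    have : y % g₃ = r % g₃ := e3
    rw [this, Nat.mod_eq_of_lt (by omega)]
  refine ⟨y, hA, hB, hp, (Nat.modEq_zero_iff_dvd).1 e1, ?_, e2, ?_, ?_⟩
  · intro hd
    have := Nat.mod_eq_zero_of_dvd hd
    omega
  · intro hd
    have : y % g₃ = φ % g₃ := hd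
    omega
  · intro hd
    have : y % g₃ = D % g₃ := hd
    omega

theorem comb {s : ℕ} {S : Finset ℕ} {M New : Multiset ℕ} (hM : M.Nodup) (hMS : ∀ b ∈ M, b ∈ S)
    (hNew : New.Nodup) (hcard : Multiset.card New ≤ 3) (hfar : ∀ b ∈ New, ∀ p ∈ S, s ≤ ad b p)
    (hSp : Sp s S) (hs : 0 < s) :
    (M + New).Nodup ∧ Sp s (S ∪ New.toFinset) ∧
      (S ∪ New.toFinset).card ≤ S.card + Multiset.card New ∧
      ∀ b ∈ M + New, b ∈ S ∪ New.toFinset := by
  have hN : New.toFinset.card ≤ Multiset.card New := Multiset.toFinset_card_le New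
  refine ⟨?_, ?_, ?_, ?_⟩
  · refine Multiset.nodup_add.2 ⟨hM, hNew, Multiset.disjoint_left.2 ?_⟩
    intro b hb hb2
    have := hfar b hb2 b (hMS b hb)
    unfold ad at this
    omega
  · intro a
    by_cases h : ∃ n ∈ New.toFinset, a ≤ n ∧ n < a + s
    · obtain ⟨n, hn, hn1, hn2⟩ := h
      refine le_trans (Finset.card_le_card ?_) (hN.trans hcard)
      intro x hx
      obtain ⟨hx1, hx2, hx3⟩ := Finset.mem_filter.1 hx
      rcases Finset.mem_union.1 hx1 with hx1 | hx1
      · exfalso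
        have := hfar n (Multiset.mem_toFinset.1 hn) x hx1
        unfold ad at this
        omega
      · exact hx1
    · refine le_trans (Finset.card_le_card ?_) (hSp a)
      intro x hx
      obtain ⟨hx1, hx2, hx3⟩ := Finset.mem_filter.1 hx
      rcases Finset.mem_union.1 hx1 with hx1 | hx1
      · exact Finset.mem_filter.2 ⟨hx1, hx2, hx3⟩
      · exact absurd ⟨x, hx1, hx2, hx3⟩ h
  · exact (Finset.card_union_le _ _).trans (by omega)
  · intro b hb
    rcases Multiset.mem_add.1 hb with h | h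
    · exact Finset.mem_union_left _ (hMS b h)
    · exact Finset.mem_union_right _ (Multiset.mem_toFinset.2 h)

section
variable {V : Type} [DecidableEq V]

/-- the numbers of the vertices of `A` -/
def MM (c₀ c₁ : V) (par : V → V) (D : V → ℕ) (Gd A : Finset V) (y : V → ℕ) : Multiset ℕ :=
  (A.erase c₀).val.map y + ((A.erase c₀).erase c₁).val.map (fun u => ad (y u) (y (par u))) +
    (Gd ∩ A).val.map (fun u => ad (D u) (y u))

theorem MM_insert {c₀ c₁ : V} {par : V → V} {D : V → ℕ} {Gd A : Finset V} {y : V → ℕ} {u : V}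
    {z : ℕ} (hu : u ∉ A) (h0 : u ≠ c₀) (h1 : u ≠ c₁)
    (hA : ∀ x ∈ A, x ≠ c₀ → par x ∈ A) (hpu : par u ∈ A) :
    MM c₀ c₁ par D Gd (insert u A) (Function.update y u z) =
      MM c₀ c₁ par D Gd A y +
        ({z} + {ad z (y (par u))} + (if u ∈ Gd then {ad (D u) z} else 0)) := by
  have hne : ∀ x ∈ A, x ≠ u := fun x hx h => hu (h ▸ hx)
  have e1 : (insert u A).erase c₀ = insert u (A.erase c₀) := Finset.erase_insert_of_ne h0
  have e2 : (insert u (A.erase c₀)).erase c₁ = insert u ((A.erase c₀).erase c₁) :=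
    Finset.erase_insert_of_ne h1
  have n1 : u ∉ A.erase c₀ := fun h => hu (Finset.mem_of_mem_erase h)
  have n2 : u ∉ (A.erase c₀).erase c₁ := fun h => n1 (Finset.mem_of_mem_erase h)
  have m1 : (A.erase c₀).val.map (Function.update y u z) = (A.erase c₀).val.map y := by
    apply Multiset.map_congr rfl
    intro x hx
    exact Function.update_of_ne (hne x (Finset.mem_of_mem_erase hx)) _ _
  have m2 : ((A.erase c₀).erase c₁).val.map
      (fun w => ad (Function.update y u z w) (Function.update y u z (par w))) =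
      ((A.erase c₀).erase c₁).val.map (fun w => ad (y w) (y (par w))) := by
    apply Multiset.map_congr rfl
    intro x hx
    have hx1 : x ∈ A.erase c₀ := Finset.mem_of_mem_erase hx
    have hx2 : x ∈ A := Finset.mem_of_mem_erase hx1
    have hx3 : x ≠ c₀ := Finset.ne_of_mem_erase hx1
    rw [Function.update_of_ne (hne x hx2), Function.update_of_ne (hne _ (hA x hx2 hx3))]
  have m3 : (Gd ∩ A).val.map (fun w => ad (D w) (Function.update y u z w)) =
      (Gd ∩ A).val.map (fun w => ad (D w) (y w)) := by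
    apply Multiset.map_congr rfl
    intro x hx
    rw [Function.update_of_ne (hne x (Finset.mem_inter.1 hx).2)]
  unfold MM
  rw [e1, e2, Finset.insert_val_of_notMem n1, Finset.insert_val_of_notMem n2, Multiset.map_cons,
    Multiset.map_cons, m1, m2, Function.update_self, Function.update_of_ne (hne _ hpu)]
  by_cases hG : u ∈ Gd
  · rw [if_pos hG, Finset.inter_insert_of_mem hG, Finset.insert_val_of_notMem
      (fun h => hu (Finset.mem_inter.1 h).2), Multiset.map_cons, m3, Function.update_self]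
    simp only [← Multiset.singleton_add]
    abel
  · rw [if_neg hG, Finset.inter_insert_of_notMem hG, m3]
    simp only [← Multiset.singleton_add]
    abel

theorem dvd_ad {g a b : ℕ} : g ∣ ad a b ↔ a ≡ b [MOD g] := by
  rcases le_total a b with h | h
  · have e : ad a b = b - a := by unfold ad; omega
    rw [e]
    exact (Nat.modEq_iff_dvd' h).symm
  · have e : ad a b = a - b := by unfold ad; omega
    rw [e]
    exact ⟨fun h' => ((Nat.modEq_iff_dvd' h).2 h').symm, fun h' => (Nat.modEq_iff_dvd' h).1 h'.symm⟩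

/-- the state of the greedy procedure -/
def Sta (g₁ g₂ g₃ U s : ℕ) (c₀ c₁ : V) (par : V → V) (D : V → ℕ) (Gd A : Finset V) : Prop :=
  ∃ (y : V → ℕ) (S : Finset ℕ), y c₀ = U ∧ 1 ≤ y c₁ ∧ y c₁ ≤ 100 * s ∧
    (∀ u ∈ A, g₁ ∣ y u ∧ ¬ g₃ ∣ y u) ∧ ¬ g₃ ∣ (U - y c₁) ∧
    (∀ u ∈ A, u ≠ c₀ → u ≠ c₁ → U ≤ 4 * y u ∧ 2 * y u ≤ U) ∧ Sp s S ∧ S.card ≤ 3 * A.card ∧
    (MM c₀ c₁ par D Gd A y).Nodup ∧ ∀ b ∈ MM c₀ c₁ par D Gd A y, Ft g₁ g₂ g₃ b ∧ b ∈ S

theorem Gpos {g₁ g₂ g₃ : ℕ} (hP : P3 g₁ g₂ g₃) : 0 < g₁ * g₂ * g₃ := by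
  have := hP.p1.pos
  have := hP.p2.pos
  have := hP.p3.pos
  positivity

theorem base {g₁ g₂ g₃ U s : ℕ} (hP : P3 g₁ g₂ g₃) (hU1 : g₁ ∣ U) (hU3 : ¬ g₃ ∣ U)
    (hs : 10 ^ 4 * (g₁ * g₂ * g₃) ≤ s) {c₀ c₁ : V} {par : V → V} {D : V → ℕ} {Gd : Finset V}
    (hne : c₁ ≠ c₀) (h0 : c₀ ∉ Gd) (hD : ∀ x ∈ Gd, 1 ≤ D x ∧ Mt g₁ g₂ g₃ (D x))
    (hU : 1000 * s ≤ U) : Sta g₁ g₂ g₃ U s c₀ c₁ par D Gd {c₀, c₁} := by
  have hG := Gpos hP
  have hs0 : 0 < s := by omega
  obtain ⟨z, hz1, hz2, hz3, hzg1, hzg3, hzD2, hzU3, hzD3⟩ :=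
    pick hP {D c₁ / 2} s U (D c₁) 1
  rw [Finset.card_singleton, one_mul] at hz2
  have hz4 := hz3 (D c₁ / 2) (Finset.mem_singleton_self _)
  have hzle : z ≤ 100 * s := by omega
  set y : V → ℕ := Function.update (Function.update (fun _ => 0) c₀ U) c₁ z with hy
  have y1 : y c₁ = z := Function.update_self _ _ _
  have y0 : y c₀ = U := by
    rw [hy, Function.update_of_ne hne.symm, Function.update_self]
  set New : Multiset ℕ := {z} + (if c₁ ∈ Gd then {ad (D c₁) z} else 0) with hNew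
  have hMM : MM c₀ c₁ par D Gd {c₀, c₁} y = 0 + New := by
    have e1 : ({c₀, c₁} : Finset V).erase c₀ = {c₁} := by
      ext x; simp only [Finset.mem_erase, Finset.mem_insert, Finset.mem_singleton]
      constructor
      · rintro ⟨h1, h2 | h2⟩
        · exact absurd h2 h1
        · exact h2
      · rintro rfl; exact ⟨hne, Or.inr rfl⟩
    have e2 : ({c₁} : Finset V).erase c₁ = ∅ := by simp
    unfold MM
    rw [e1, e2, hNew]
    by_cases hc : c₁ ∈ Gd
    · have e3 : Gd ∩ {c₀, c₁} = {c₁} := by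
        ext x; simp only [Finset.mem_inter, Finset.mem_insert, Finset.mem_singleton]
        constructor
        · rintro ⟨h1, h2 | h2⟩
          · rw [h2] at h1; exact absurd h1 h0
          · exact h2
        · rintro rfl; exact ⟨hc, Or.inr rfl⟩
      rw [e3, if_pos hc]
      simp [y1]
    · have e3 : Gd ∩ {c₀, c₁} = ∅ := by
        ext x
        simp only [Finset.mem_inter, Finset.mem_insert, Finset.mem_singleton, Finset.notMem_empty,
          iff_false]
        rintro ⟨h1, h2 | h2⟩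
        · rw [h2] at h1; exact h0 h1
        · rw [h2] at h1; exact hc h1
      rw [e3, if_neg hc]
      simp [y1]
  have hzF : Ft g₁ g₂ g₃ z := ⟨hz1, Or.inl hzg1, hzg3⟩
  have hdF : Ft g₁ g₂ g₃ (ad (D c₁) z) := by
    refine ⟨?_, Or.inr (dvd_ad.2 hzD2.symm), fun h => hzD3 (dvd_ad.1 h).symm⟩
    apply ad_pos
    intro h
    apply hzD3
    rw [h]
  have hNF : ∀ b ∈ New, Ft g₁ g₂ g₃ b := by
    intro b hb
    rw [hNew] at hb
    rcases Multiset.mem_add.1 hb with h | h
    · rw [Multiset.mem_singleton.1 h]; exact hzF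
    · split_ifs at h with hc
      · rw [Multiset.mem_singleton.1 h]; exact hdF
      · simp at h
  have hNn : New.Nodup := by
    rw [hNew]
    split_ifs with hc
    · have h1 := (hD c₁ hc).1
      refine Multiset.nodup_add.2 ⟨Multiset.nodup_singleton _, Multiset.nodup_singleton _, ?_⟩
      rw [Multiset.singleton_disjoint, Multiset.mem_singleton]
      intro h
      unfold ad at h hz4
      omega
    · simp
  have hNc : Multiset.card New ≤ 3 := by
    rw [hNew]
    split_ifs <;> simp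
  have hc := comb (s := s) (S := ∅) (M := 0) (New := New) Multiset.nodup_zero
    (fun b hb => absurd hb (Multiset.notMem_zero b)) hNn hNc
    (fun b _ p hp => absurd hp (Finset.notMem_empty p)) (fun a => by simp) hs0
  obtain ⟨k1, k2, k3, k4⟩ := hc
  refine ⟨y, ∅ ∪ New.toFinset, y0, by rw [y1]; exact hz1, by rw [y1]; exact hzle, ?_, ?_, ?_, k2,
    ?_, ?_, ?_⟩
  · intro u hu
    rcases Finset.mem_insert.1 hu with rfl | hu
    · rw [y0]; exact ⟨hU1, hU3⟩
    · rw [Finset.mem_singleton.1 hu, y1]; exact ⟨hzg1, hzg3⟩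
  · rw [y1]
    intro h
    apply hzU3
    exact (Nat.modEq_iff_dvd' (by omega)).2 h
  · intro u hu h1 h2
    rcases Finset.mem_insert.1 hu with rfl | hu
    · exact absurd rfl h1
    · exact absurd (Finset.mem_singleton.1 hu) h2
  · have e : ({c₀, c₁} : Finset V).card = 2 := Finset.card_pair hne.symm
    rw [e]
    rw [Finset.card_empty] at k3
    omega
  · rw [hMM]; exact k1
  · rw [hMM]
    intro b hb
    refine ⟨?_, k4 b hb⟩
    rw [zero_add] at hb
    exact hNF b hb

theorem step {g₁ g₂ g₃ U s : ℕ} (hP : P3 g₁ g₂ g₃)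
    (hs : 10 ^ 4 * (g₁ * g₂ * g₃) ≤ s) {c₀ c₁ : V} {par : V → V} {D : V → ℕ} {Gd A : Finset V}
    (hD : ∀ x ∈ Gd, 1 ≤ D x ∧ Mt g₁ g₂ g₃ (D x)) {u : V} (hu : u ∉ A) (h0 : c₀ ∈ A) (h1 : c₁ ∈ A)
    (hA : ∀ x ∈ A, x ≠ c₀ → par x ∈ A) (hpu : par u ∈ A) (hU : 1000 * s * (A.card + 1) ≤ U)
    (h : Sta g₁ g₂ g₃ U s c₀ c₁ par D Gd A) : Sta g₁ g₂ g₃ U s c₀ c₁ par D Gd (insert u A) := by
  have hG := Gpos hP
  have hs0 : 0 < s := by omega
  obtain ⟨y, S, y0, y1, y1', yg, yU, yb, hSp, hSc, hMn, hMF⟩ := h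
  have hu0 : u ≠ c₀ := fun h => hu (h ▸ h0)
  have hu1 : u ≠ c₁ := fun h => hu (h ▸ h1)
  set φ := y (par u) with hφ
  obtain ⟨hφ1, hφ3⟩ := yg _ hpu
  rw [← hφ] at hφ1 hφ3
  have hφ0 : 1 ≤ φ := by
    rcases Nat.eq_zero_or_pos φ with h | h
    · exact absurd (h ▸ dvd_zero g₃) hφ3
    · exact h
  set P : Finset ℕ := S ∪ S.image (fun p => φ + p) ∪ S.image (fun p => φ - p) ∪
    S.image (fun p => D u + p) ∪ S.image (fun p => D u - p) ∪
    {φ / 2, D u / 2, (φ + D u) / 2} with hPdef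
  have hPc : P.card ≤ 5 * S.card + 3 := by
    have a1 := Finset.card_image_le (s := S) (f := fun p => φ + p)
    have a2 := Finset.card_image_le (s := S) (f := fun p => φ - p)
    have a3 := Finset.card_image_le (s := S) (f := fun p => D u + p)
    have a4 := Finset.card_image_le (s := S) (f := fun p => D u - p)
    have a5 : ({φ / 2, D u / 2, (φ + D u) / 2} : Finset ℕ).card ≤ 3 := Finset.card_le_three
    have b1 := Finset.card_union_le (S ∪ S.image (fun p => φ + p) ∪ S.image (fun p => φ - p) ∪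
      S.image (fun p => D u + p) ∪ S.image (fun p => D u - p)) {φ / 2, D u / 2, (φ + D u) / 2}
    have b2 := Finset.card_union_le (S ∪ S.image (fun p => φ + p) ∪ S.image (fun p => φ - p) ∪
      S.image (fun p => D u + p)) (S.image (fun p => D u - p))
    have b3 := Finset.card_union_le (S ∪ S.image (fun p => φ + p) ∪ S.image (fun p => φ - p))
      (S.image (fun p => D u + p))
    have b4 := Finset.card_union_le (S ∪ S.image (fun p => φ + p)) (S.image (fun p => φ - p))
    have b5 := Finset.card_union_le S (S.image (fun p => φ + p))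
    rw [hPdef]
    omega
  obtain ⟨z, hz1, hz2, hz3, hzg1, hzg3, hzD2, hzφ3, hzD3⟩ := pick hP P s φ (D u) (U / 4 + 1)
  have hbound : P.card * (2 * s + g₁ * g₂ * g₃) + g₁ * g₂ * g₃ + 1 ≤ 55 * (s * (A.card + 1)) := by
    have b1 : P.card * (2 * s + g₁ * g₂ * g₃) ≤ (15 * A.card + 3) * (3 * s) :=
      Nat.mul_le_mul (by omega) (by omega)
    have b2 : (15 * A.card + 3) * (3 * s) + s + s ≤ 55 * (s * (A.card + 1)) := by nlinarith
    omega
  have hU' : 1000 * (s * (A.card + 1)) ≤ U := by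
    rw [mul_assoc] at hU; exact hU
  have hzU : U ≤ 4 * z ∧ 2 * z ≤ U := by
    constructor <;> omega
  have hsz : s ≤ z := by
    have : s * 1 ≤ s * (A.card + 1) := Nat.mul_le_mul_left _ (by omega)
    omega
  have far0 : ∀ p ∈ S, s ≤ ad z p := fun p hp => hz3 p (by
    rw [hPdef]; simp only [Finset.mem_union]; tauto)
  have far1 : ∀ p ∈ S, s ≤ ad (ad z φ) p := by
    intro p hp
    have a1 := hz3 (φ + p) (by
      rw [hPdef]; simp only [Finset.mem_union, Finset.mem_image]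
      exact Or.inl (Or.inl (Or.inl (Or.inl (Or.inr ⟨p, hp, rfl⟩)))))
    have a2 := hz3 (φ - p) (by
      rw [hPdef]; simp only [Finset.mem_union, Finset.mem_image]
      exact Or.inl (Or.inl (Or.inl (Or.inr ⟨p, hp, rfl⟩))))
    unfold ad at a1 a2 ⊢
    omega
  have far2 : ∀ p ∈ S, s ≤ ad (ad (D u) z) p := by
    intro p hp
    have a1 := hz3 (D u + p) (by
      rw [hPdef]; simp only [Finset.mem_union, Finset.mem_image]
      exact Or.inl (Or.inl (Or.inr ⟨p, hp, rfl⟩)))
    have a2 := hz3 (D u - p) (by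
      rw [hPdef]; simp only [Finset.mem_union, Finset.mem_image]
      exact Or.inl (Or.inr ⟨p, hp, rfl⟩))
    unfold ad at a1 a2 ⊢
    omega
  have c1 := hz3 (φ / 2) (by rw [hPdef]; simp)
  have c2 := hz3 (D u / 2) (by rw [hPdef]; simp)
  have c3 := hz3 ((φ + D u) / 2) (by rw [hPdef]; simp)
  set New : Multiset ℕ := {z} + {ad z φ} + (if u ∈ Gd then {ad (D u) z} else 0) with hNew
  have hzF : Ft g₁ g₂ g₃ z := ⟨by omega, Or.inl hzg1, hzg3⟩
  have hφF : Ft g₁ g₂ g₃ (ad z φ) := by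
    refine ⟨?_, Or.inl (dvd_ad.2 ?_), fun h => hzφ3 (dvd_ad.1 h)⟩
    · apply ad_pos
      intro h
      apply hzφ3
      rw [h]
    · exact ((Nat.modEq_zero_iff_dvd).2 hzg1).trans ((Nat.modEq_zero_iff_dvd).2 hφ1).symm
  have hdF : Ft g₁ g₂ g₃ (ad (D u) z) := by
    refine ⟨?_, Or.inr (dvd_ad.2 hzD2.symm), fun h => hzD3 (dvd_ad.1 h).symm⟩
    apply ad_pos
    intro h
    apply hzD3
    rw [h]
  have hmem : ∀ b ∈ New, b = z ∨ b = ad z φ ∨ (b = ad (D u) z) := by
    intro b hb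
    rw [hNew] at hb
    rcases Multiset.mem_add.1 hb with h | h
    · rcases Multiset.mem_add.1 h with h | h
      · exact Or.inl (Multiset.mem_singleton.1 h)
      · exact Or.inr (Or.inl (Multiset.mem_singleton.1 h))
    · split_ifs at h with hc
      · exact Or.inr (Or.inr (Multiset.mem_singleton.1 h))
      · simp at h
  have hNF : ∀ b ∈ New, Ft g₁ g₂ g₃ b := by
    intro b hb
    rcases hmem b hb with h | h | h
    · rw [h]; exact hzF
    · rw [h]; exact hφF
    · rw [h]; exact hdF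
  have hfar : ∀ b ∈ New, ∀ p ∈ S, s ≤ ad b p := by
    intro b hb p hp
    rcases hmem b hb with h | h | h
    · rw [h]; exact far0 p hp
    · rw [h]; exact far1 p hp
    · rw [h]; exact far2 p hp
  have n1 : z ≠ ad z φ := by
    intro h
    unfold ad at h c1
    omega
  have hNn : New.Nodup := by
    rw [hNew]
    have e1 : ({z} + {ad z φ} : Multiset ℕ).Nodup := by
      refine Multiset.nodup_add.2 ⟨Multiset.nodup_singleton _, Multiset.nodup_singleton _, ?_⟩
      rw [Multiset.singleton_disjoint, Multiset.mem_singleton]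
      exact n1
    split_ifs with hc
    · obtain ⟨hD1, hDM⟩ := hD u hc
      have hφD : φ ≠ D u := by
        intro h
        rcases hDM with hco | hdv
        · have d1 : g₁ ∣ g₁ * g₂ * g₃ := Dvd.intro _ (by ring : g₁ * (g₂ * g₃) = g₁ * g₂ * g₃)
          have d2 : g₁ ∣ D u := h ▸ hφ1
          have d3 := Nat.dvd_gcd d2 d1
          rw [Nat.Coprime] at hco
          rw [hco] at d3
          have := Nat.le_of_dvd (by norm_num) d3
          have := hP.h1
          omega
        · apply hφ3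
          rw [h]
          exact (Dvd.intro_left (g₁ * g₂) rfl).trans hdv
      refine Multiset.nodup_add.2 ⟨e1, Multiset.nodup_singleton _, ?_⟩
      rw [Multiset.disjoint_left]
      intro b hb hb2
      rw [Multiset.mem_singleton] at hb2
      rcases Multiset.mem_add.1 hb with h | h
      · rw [Multiset.mem_singleton] at h
        rw [h] at hb2
        unfold ad at hb2 c2
        omega
      · rw [Multiset.mem_singleton] at h
        rw [h] at hb2
        unfold ad at hb2 c3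
        omega
    · rw [add_zero]; exact e1
  have hNc : Multiset.card New ≤ 3 := by
    rw [hNew]
    split_ifs <;> simp
  obtain ⟨k1, k2, k3, k4⟩ := comb hMn (fun b hb => (hMF b hb).2) hNn hNc hfar hSp hs0
  have hMM := MM_insert (c₀ := c₀) (c₁ := c₁) (par := par) (D := D) (Gd := Gd) (y := y) (z := z)
    hu hu0 hu1 hA hpu
  have hne : ∀ x ∈ A, x ≠ u := fun x hx h => hu (h ▸ hx)
  refine ⟨Function.update y u z, S ∪ New.toFinset, ?_, ?_, ?_, ?_, ?_, ?_, k2, ?_, ?_, ?_⟩
  · rw [Function.update_of_ne hu0.symm]; exact y0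
  · rw [Function.update_of_ne hu1.symm]; exact y1
  · rw [Function.update_of_ne hu1.symm]; exact y1'
  · intro w hw
    rcases Finset.mem_insert.1 hw with rfl | hw
    · rw [Function.update_self]; exact ⟨hzg1, hzg3⟩
    · rw [Function.update_of_ne (hne w hw)]; exact yg w hw
  · rw [Function.update_of_ne hu1.symm]; exact yU
  · intro w hw w0 w1
    rcases Finset.mem_insert.1 hw with rfl | hw
    · rw [Function.update_self]; exact hzU
    · rw [Function.update_of_ne (hne w hw)]; exact yb w hw w0 w1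
  · rw [Finset.card_insert_of_notMem hu]; omega
  · rw [hMM]; exact k1
  · rw [hMM]
    intro b hb
    refine ⟨?_, k4 b hb⟩
    rcases Multiset.mem_add.1 hb with h | h
    · exact (hMF b h).1
    · exact hNF b h

theorem all {g₁ g₂ g₃ U s : ℕ} (hP : P3 g₁ g₂ g₃) (hU1 : g₁ ∣ U) (hU3 : ¬ g₃ ∣ U)
    (hs : 10 ^ 4 * (g₁ * g₂ * g₃) ≤ s) {c₀ c₁ : V} {par : V → V} {rk : V → ℕ} {D : V → ℕ}
    {K Gd : Finset V} (hne : c₁ ≠ c₀) (hp1 : par c₁ = c₀)
    (hK : ∀ x ∈ K, x ≠ c₀ → par x ∈ K ∧ rk (par x) < rk x)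
    (h0 : c₀ ∉ Gd) (hD : ∀ x ∈ Gd, 1 ≤ D x ∧ Mt g₁ g₂ g₃ (D x))
    (hU : 1000 * s * (K.card + 1) ≤ U) :
    ∀ n : ℕ, ∀ A ⊆ K, A.card = n → c₀ ∈ A → c₁ ∈ A → (∀ x ∈ A, x ≠ c₀ → par x ∈ A) →
      Sta g₁ g₂ g₃ U s c₀ c₁ par D Gd A := by
  intro n
  induction n with
  | zero =>
    intro A _ hc h0A
    rw [Finset.card_eq_zero] at hc
    rw [hc] at h0A
    simp at h0A
  | succ n ih =>
    intro A hAK hAc h0A h1A hA
    by_cases hemp : ((A.erase c₀).erase c₁).Nonempty
    · obtain ⟨u, hu, hmax⟩ := Finset.exists_max_image _ rk hemp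
      have hu1 : u ≠ c₁ := Finset.ne_of_mem_erase hu
      have hu' := Finset.mem_of_mem_erase hu
      have hu0 : u ≠ c₀ := Finset.ne_of_mem_erase hu'
      have huA : u ∈ A := Finset.mem_of_mem_erase hu'
      have hclosed : ∀ x ∈ A.erase u, x ≠ c₀ → par x ∈ A.erase u := by
        intro x hx hx0
        have hxA := Finset.mem_of_mem_erase hx
        refine Finset.mem_erase.2 ⟨?_, hA x hxA hx0⟩
        intro hpx
        by_cases hx1 : x = c₁
        · rw [hx1, hp1] at hpx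
          exact hu0 hpx.symm
        · have h1 := hmax x (Finset.mem_erase.2 ⟨hx1, Finset.mem_erase.2 ⟨hx0, hxA⟩⟩)
          have h2 := (hK x (hAK hxA) hx0).2
          rw [hpx] at h2
          omega
      have hpu : par u ∈ A.erase u := by
        refine Finset.mem_erase.2 ⟨?_, hA u huA hu0⟩
        intro h
        have h2 := (hK u (hAK huA) hu0).2
        rw [h] at h2
        omega
      have hcard : (A.erase u).card = n := by
        rw [Finset.card_erase_of_mem huA]; omega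
      have hprev := ih (A.erase u) ((Finset.erase_subset _ _).trans hAK) hcard
        (Finset.mem_erase.2 ⟨hu0.symm, h0A⟩) (Finset.mem_erase.2 ⟨hu1.symm, h1A⟩) hclosed
      have hle : (A.erase u).card ≤ K.card :=
        Finset.card_le_card ((Finset.erase_subset _ _).trans hAK)
      have := step hP hs hD (Finset.notMem_erase u A) (Finset.mem_erase.2 ⟨hu0.symm, h0A⟩)
        (Finset.mem_erase.2 ⟨hu1.symm, h1A⟩) hclosed hpu
        (le_trans (Nat.mul_le_mul_left _ (by omega)) hU) hprev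
      rwa [Finset.insert_erase huA] at this
    · have hAeq : A = {c₀, c₁} := by
        ext x
        simp only [Finset.mem_insert, Finset.mem_singleton]
        constructor
        · intro hx
          by_contra hcon
          push Not at hcon
          exact hemp ⟨x, Finset.mem_erase.2 ⟨hcon.2, Finset.mem_erase.2 ⟨hcon.1, hx⟩⟩⟩
        · rintro (rfl | rfl)
          · exact h0A
          · exact h1A
      rw [hAeq]
      refine base hP hU1 hU3 hs hne h0 hD ?_
      calc 1000 * s = 1000 * s * 1 := by ring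
        _ ≤ 1000 * s * (K.card + 1) := Nat.mul_le_mul_left _ (by omega)
        _ ≤ U := hU

end

theorem fill {g₁ g₂ g₃ U s k nf : ℕ} (hP : P3 g₁ g₂ g₃) (hs : 10 ^ 4 * (g₁ * g₂ * g₃) ≤ s)
    (hU : 1000 * s * (k + nf + 1) ≤ U) {M : Multiset ℕ} {S : Finset ℕ} (hM : M.Nodup)
    (hMS : ∀ b ∈ M, Ft g₁ g₂ g₃ b ∧ b ∈ S) (hSp : Sp s S) (hSc : S.card ≤ 3 * k) :
    ∀ n ≤ nf, ∃ (x : ℕ → ℕ) (S' : Finset ℕ), Sp s S' ∧ S'.card ≤ 3 * k + n ∧
      (M + ∑ i ∈ range n, ({x i} : Multiset ℕ)).Nodup ∧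
      (∀ b ∈ M + ∑ i ∈ range n, ({x i} : Multiset ℕ), Ft g₁ g₂ g₃ b ∧ b ∈ S') ∧
      ∀ i < n, 2 * x i ≤ U := by
  have hG := Gpos hP
  have hs0 : 0 < s := by omega
  intro n
  induction n with
  | zero =>
    intro _
    refine ⟨fun _ => 0, S, hSp, hSc, by simpa using hM, by simpa using hMS, by simp⟩
  | succ n ih =>
    intro hn
    obtain ⟨x, S', h1, h2, h3, h4, h5⟩ := ih (by omega)
    obtain ⟨z, hz1, hz2, hz3, hzg1, hzg3, -, -, -⟩ := pick hP S' s 0 0 1
    have hb : S'.card * (2 * s + g₁ * g₂ * g₃) + g₁ * g₂ * g₃ + 1 ≤ 20 * (s * (k + nf + 1)) := by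
      have b1 : S'.card * (2 * s + g₁ * g₂ * g₃) ≤ (3 * k + nf) * (3 * s) :=
        Nat.mul_le_mul (by omega) (by omega)
      have b2 : (3 * k + nf) * (3 * s) + s + s ≤ 20 * (s * (k + nf + 1)) := by nlinarith
      omega
    have hU' : 1000 * (s * (k + nf + 1)) ≤ U := by
      rw [mul_assoc] at hU; exact hU
    obtain ⟨k1, k2, k3, k4⟩ := comb h3 (fun b hb => (h4 b hb).2) (Multiset.nodup_singleton z)
      (by simp) (fun b hb p hp => by rw [Multiset.mem_singleton.1 hb]; exact hz3 p hp) h1 hs0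
    have e : M + ∑ i ∈ range (n + 1), ({Function.update x n z i} : Multiset ℕ) =
        M + ∑ i ∈ range n, ({x i} : Multiset ℕ) + {z} := by
      rw [Finset.sum_range_succ, Function.update_self, ← add_assoc]
      congr 2
      apply Finset.sum_congr rfl
      intro i hi
      rw [Function.update_of_ne (by have := Finset.mem_range.1 hi; omega)]
    refine ⟨Function.update x n z, S' ∪ ({z} : Multiset ℕ).toFinset, k2, ?_, ?_, ?_, ?_⟩
    · rw [Multiset.card_singleton] at k3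
      omega
    · rw [e]; exact k1
    · rw [e]
      intro b hb
      refine ⟨?_, k4 b hb⟩
      rcases Multiset.mem_add.1 hb with h | h
      · exact (h4 b h).1
      · rw [Multiset.mem_singleton.1 h]
        exact ⟨hz1, Or.inl hzg1, hzg3⟩
    · intro i hi
      by_cases hin : i = n
      · rw [hin, Function.update_self]
        omega
      · rw [Function.update_of_ne hin]
        exact h5 i (by omega)

theorem z_kl : KlStm := by
  intro V _ g₁ g₂ g₃ U s nf K Gd c₀ c₁ par rk D hP hU1 hU3 hs h0K h1K hne hp1 hK hGd hD hU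
  have h0 : c₀ ∉ Gd := fun h => (Finset.mem_erase.1 (hGd h)).1 rfl
  have hUK : 1000 * s * (K.card + 1) ≤ U :=
    le_trans (Nat.mul_le_mul_left _ (by omega)) hU
  obtain ⟨y, S, y0, y1, y1', yg, yU, yb, hSp, hSc, hMn, hMF⟩ :=
    all hP hU1 hU3 hs hne hp1 hK h0 hD hUK K.card K (Finset.Subset.refl _) rfl h0K h1K
      (fun x hx hx0 => (hK x hx hx0).1)
  obtain ⟨x, S', k1, k2, k3, k4, k5⟩ := fill hP hs hU hMn hMF hSp hSc nf le_rfl
  have hGK : Gd ∩ K = Gd := Finset.inter_eq_left.2 (hGd.trans (Finset.erase_subset _ _))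
  unfold MM at k3 k4
  rw [hGK] at k3 k4
  exact ⟨y, x, S', y0, y1, y1', yg, yU, yb, k5, k1, k3, k4⟩

end Pool.Agent.W672.SQ
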